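import Pool.Agent.U409.OA.Stm3

set_option autoImplicit false

/-! Project OA (helper409), package ID (helper884): the main identity by induction. -/

namespace Pool.Agent.U884.OA.ID

open Finset Filter Topology Pool.Agent.U409.OA

lemma z_ne_zero {z : ℂ} (hz : z ^ 2 = z - 1) : z ≠ 0 := by
  rintro rfl
  norm_num at hz

lemma z_ne_two {z : ℂ} (hz : z ^ 2 = z - 1) : z - 2 ≠ 0 := by
  intro h
  have h2 : z = 2 := by linear_combination h
  rw [h2] at hz
  norm_num at hz

lemma z_not_real {z : ℂ} (hz : z ^ 2 = z - 1) (r : ℝ) : z ≠ (r : ℂ) := by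
  rintro rfl
  have h : r ^ 2 = r - 1 := by exact_mod_cast hz
  nlinarith [sq_nonneg (r - 1 / 2)]

lemma z_cube {z : ℂ} (hz : z ^ 2 = z - 1) : z ^ 3 = -1 := by
  linear_combination (z + 1) * hz

/-- the identity is symmetric -/
lemma I1_perm (hP : S_PERM) {z : ℂ} (hz : z ^ 2 = z - 1) (m : ℕ) {w w' : List ℂ}
    (h : w.Perm w') (hw : I1 z m w) : I1 z m w' := by
  unfold I1 at hw ⊢
  rw [← (hP z hz _ _ h).2, ← (hP z hz _ _ (h.map fun y => y⁻¹)).2,
    ← (hP z hz _ _ (h.append_right [-1])).1, ← (h.map fun y => 1 + z ^ 2 * y).prod_eq,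
    ← (h.map fun y => y ^ (2 * m)).prod_eq, ← (h.map fun y => y + z ^ 2).prod_eq,
    ← (h.map fun y => 1 + y).prod_eq]
  exact hw

lemma base {z : ℂ} (hz : z ^ 2 = z - 1) (x : ℂ) : I1 z 0 [x] := by
  have hA : ∀ y : ℂ, A z [y] = 1 := by
    intro y
    simp [A, ZD, Z, row, ke]
  have hG : G z [x, -1] = z - 2 := by
    simp [G, Z, row, k0, cw]
  unfold I1
  have e : [x] ++ [(-1 : ℂ)] = [x, -1] := rfl
  rw [e, hG]
  simp only [List.map_cons, List.map_nil, List.prod_cons, List.prod_nil, hA]
  have h2 := z_ne_two hz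
  field_simp
  linear_combination (1 + x) * hz

/-- reversed polynomial -/
lemma rev (Q : Polynomial ℂ) (n : ℕ) (hQ : Q.natDegree ≤ n) : ∃ R : Polynomial ℂ,
    R.natDegree ≤ n ∧ ∀ x : ℂ, x ≠ 0 → R.eval x = x ^ n * Q.eval x⁻¹ := by
  refine ⟨∑ i ∈ range (n + 1), Polynomial.C (Q.coeff i) * Polynomial.X ^ (n - i), ?_, ?_⟩
  · refine Polynomial.natDegree_sum_le_of_forall_le _ _ fun i _ => ?_
    exact (Polynomial.natDegree_C_mul_X_pow_le _ _).trans (Nat.sub_le _ _)
  · intro x hx
    rw [Polynomial.eval_eq_sum_range' (show Q.natDegree < n + 1 by omega), Polynomial.eval_finsetSum,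
      mul_sum]
    refine sum_congr rfl fun i hi => ?_
    have hi' : i ≤ n := by have := mem_range.1 hi; omega
    simp only [Polynomial.eval_mul, Polynomial.eval_C, Polynomial.eval_pow, Polynomial.eval_X]
    have : x ^ n = x ^ (n - i) * x ^ i := by rw [← pow_add]; congr 1; omega
    rw [this, inv_pow]
    field_simp

/-- the embedding of the reals in the complex numbers -/
noncomputable def cc (v : List ℝ) : List ℂ := List.map (fun t : ℝ => (t : ℂ)) v

theorem main (hP : S_PERM) (hD : S_DEG) (hIC : S_IC) (hIC2 : S_IC2) (z : ℂ) (hz : z ^ 2 = z - 1)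
    (m : ℕ) : ∀ v : List ℝ, v.length = 2 * m → (∀ t ∈ v, 1 < t) → v.Nodup →
      ∀ x : ℂ, x ≠ 0 → I1 z m (x :: cc v) := by
  induction m with
  | zero =>
    intro v hv _ _ x _
    have : v = [] := List.eq_nil_of_length_eq_zero (by simpa using hv)
    subst this
    exact base hz x
  | succ m ih =>
    intro v hv hv1 hnd
    have hz0 := z_ne_zero hz
    set v' : List ℂ := cc v with hv'
    have hlen : v'.length = 2 * m + 2 := by rw [hv', cc, List.length_map, hv]; ring
    -- the identity at the special points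
    have hspec : ∀ t ∈ v, ∀ x : ℂ, (x * t = z ^ 2 ∨ z ^ 2 * (x * t) = 1) →
        I1 z (m + 1) (x :: v') := by
      intro t ht x hx
      have hperm : v.Perm (t :: v.erase t) := List.perm_cons_erase ht
      have hperm' : (x :: (t : ℂ) :: cc (v.erase t)).Perm (x :: v') := by
        refine List.Perm.cons x ?_
        have := hperm.map fun t : ℝ => (t : ℂ)
        exact this.symm
      refine I1_perm hP hz (m + 1) hperm' ?_
      have hel : (v.erase t).length = 2 * m + 1 := by
        rw [List.length_erase_of_mem ht, hv]; omega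
      have hsub : ∀ s ∈ v.erase t, s ∈ v := fun s hs => List.mem_of_mem_erase hs
      have hnd' : (v.erase t).Nodup := hnd.erase t
      have hI : I1 z m (cc (v.erase t)) := by
        rcases he : v.erase t with _ | ⟨t0, v0⟩
        · rw [he] at hel; simp at hel
        · rw [he] at hel hsub hnd'
          refine ih v0 (by simpa using hel) (fun s hs => hv1 s (hsub s (List.mem_cons_of_mem _ hs)))
            (List.nodup_cons.1 hnd').2 _ ?_
          have := hv1 t0 (hsub t0 List.mem_cons_self)
          show ((t0 : ℝ) : ℂ) ≠ 0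
          exact_mod_cast (by linarith : (t0 : ℝ) ≠ 0)
      have hne : ∀ s ∈ cc (v.erase t), s ≠ 0 := by
        intro s hs
        unfold cc at hs
        obtain ⟨r, hr, rfl⟩ := List.mem_map.1 hs
        have := hv1 r (hsub r hr)
        exact_mod_cast (by linarith : (r : ℝ) ≠ 0)
      rcases hx with hx | hx
      · exact hIC z hz m x t _ (by rw [cc, List.length_map, hel]) hne hx hI
      · exact hIC2 z hz m x t _ (by rw [cc, List.length_map, hel]) hne hx hI
    -- polynomials
    obtain ⟨P, hPd, hPe⟩ := (hD z v').2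
    obtain ⟨Q, hQd, hQe⟩ := (hD z (v'.map fun y => y⁻¹)).2
    obtain ⟨H, hHd, hHe⟩ := (hD z (v' ++ [-1])).1 (by simp)
    rw [hlen] at hPd
    rw [List.length_map, hlen] at hQd
    rw [List.length_append, hlen, List.length_singleton] at hHd
    obtain ⟨Q', hQ'd, hQ'e⟩ := rev Q (2 * m + 2) hQd
    set c1 : ℂ := (v'.map fun y => 1 + z ^ 2 * y).prod with hc1
    set c2 : ℂ := (v'.map fun y => y ^ (2 * (m + 1))).prod with hc2
    set c3 : ℂ := (v'.map fun y => y + z ^ 2).prod with hc3
    set c4 : ℂ := (v'.map fun y => 1 + y).prod with hc4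
    set R : Polynomial ℂ := Polynomial.C c1 * (P * (1 + Polynomial.C (z ^ 2) * Polynomial.X)) +
      Polynomial.C (c2 * c3) * (Q' * (Polynomial.X + Polynomial.C (z ^ 2))) -
      Polynomial.C (z ^ (2 * (m + 1) + 1) / (z - 2) * c4) * (H * (1 + Polynomial.X)) with hR
    have hRe : ∀ x : ℂ, x ≠ 0 → (R.eval x = 0 ↔ I1 z (m + 1) (x :: v')) := by
      intro x hx
      unfold I1
      simp only [List.map_cons, List.prod_cons, List.cons_append]
      rw [hPe x, hQe x⁻¹, hHe x]
      have e1 : R.eval x = P.eval x * ((1 + z ^ 2 * x) * c1) + x ^ (2 * (m + 1)) * c2 * Q.eval x⁻¹ *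
          ((x + z ^ 2) * c3) - z ^ (2 * (m + 1) + 1) / (z - 2) * ((1 + x) * c4) * H.eval x := by
        rw [hR]
        simp only [Polynomial.eval_add, Polynomial.eval_sub, Polynomial.eval_mul, Polynomial.eval_C,
          Polynomial.eval_X, Polynomial.eval_one, hQ'e x hx]
        ring
      rw [e1]
      exact sub_eq_zero
    have hlin1 : (1 + Polynomial.C (z ^ 2) * Polynomial.X : Polynomial ℂ).natDegree ≤ 1 := by
      compute_degree
    have hlin2 : (Polynomial.X + Polynomial.C (z ^ 2) : Polynomial ℂ).natDegree ≤ 1 := by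
      compute_degree
    have hlin3 : (1 + Polynomial.X : Polynomial ℂ).natDegree ≤ 1 := by
      compute_degree
    have hCm : ∀ (c : ℂ) (p q : Polynomial ℂ), p.natDegree ≤ 2 * m + 2 → q.natDegree ≤ 1 →
        (Polynomial.C c * (p * q)).natDegree ≤ 2 * m + 3 := by
      intro c p q hp hq
      refine (Polynomial.natDegree_C_mul_le _ _).trans (Polynomial.natDegree_mul_le.trans ?_)
      omega
    have hRd : R.natDegree ≤ 2 * m + 3 := by
      rw [hR]
      refine (Polynomial.natDegree_sub_le _ _).trans (max_le ?_ ?_)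
      · refine (Polynomial.natDegree_add_le _ _).trans (max_le ?_ ?_)
        · exact hCm _ _ _ hPd hlin1
        · exact hCm _ _ _ hQ'd hlin2
      · exact hCm _ _ _ (by omega) hlin3
    have ht0 : ∀ t ∈ v, (t : ℂ) ≠ 0 := by
      intro t ht
      have := hv1 t ht
      exact_mod_cast (by linarith : (t : ℝ) ≠ 0)
    -- the roots
    have hR0 : R = 0 := by
      classical
      set s1 : Finset ℂ := v.toFinset.image fun t : ℝ => z ^ 2 / (t : ℂ) with hs1
      set s2 : Finset ℂ := v.toFinset.image fun t : ℝ => -z / (t : ℂ) with hs2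
      have hinj : ∀ c : ℂ, c ≠ 0 → Set.InjOn (fun t : ℝ => c / (t : ℂ)) (v.toFinset : Set ℝ) := by
        intro c hc a ha b hb hab
        have ha' := ht0 a (List.mem_toFinset.1 ha)
        have hb' := ht0 b (List.mem_toFinset.1 hb)
        simp only at hab
        rw [div_eq_div_iff ha' hb'] at hab
        have := mul_left_cancel₀ hc hab
        exact_mod_cast this.symm
      have hc1' : s1.card = 2 * m + 2 := by
        rw [hs1, card_image_of_injOn (hinj _ (pow_ne_zero 2 hz0)), List.toFinset_card_of_nodup hnd,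
          hv]
        ring
      have hc2' : s2.card = 2 * m + 2 := by
        rw [hs2, card_image_of_injOn (hinj _ (neg_ne_zero.2 hz0)), List.toFinset_card_of_nodup hnd,
          hv]
        ring
      have hdisj : Disjoint s1 s2 := by
        rw [Finset.disjoint_left]
        intro x hx1 hx2
        obtain ⟨a, ha, hxa⟩ := mem_image.1 hx1
        obtain ⟨b, hb, hxb⟩ := mem_image.1 hx2
        have ha' := ht0 a (List.mem_toFinset.1 ha)
        have hb' := ht0 b (List.mem_toFinset.1 hb)
        rw [← hxb, div_eq_div_iff ha' hb'] at hxa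
        have h1 : z * b = -a := by
          apply mul_left_cancel₀ hz0
          linear_combination hxa
        apply z_not_real hz (-a / b)
        push_cast
        rw [eq_div_iff hb']
        exact h1
      have hcard : (s1 ∪ s2).card = 4 * m + 4 := by
        rw [card_union_of_disjoint hdisj, hc1', hc2']; ring
      refine Polynomial.eq_zero_of_natDegree_lt_card_of_eval_eq_zero' R (s1 ∪ s2) ?_ ?_
      · intro x hx
        rcases mem_union.1 hx with hx | hx
        · obtain ⟨t, ht, rfl⟩ := mem_image.1 hx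
          have ht' := List.mem_toFinset.1 ht
          refine (hRe _ (div_ne_zero (pow_ne_zero 2 hz0) (ht0 t ht'))).2 (hspec t ht' _ (Or.inl ?_))
          rw [div_mul_cancel₀ _ (ht0 t ht')]
        · obtain ⟨t, ht, rfl⟩ := mem_image.1 hx
          have ht' := List.mem_toFinset.1 ht
          refine (hRe _ (div_ne_zero (neg_ne_zero.2 hz0) (ht0 t ht'))).2
            (hspec t ht' _ (Or.inr ?_))
          rw [div_mul_cancel₀ _ (ht0 t ht')]
          linear_combination -z_cube hz
      · rw [hcard]; omega
    intro x hx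
    exact (hRe x hx).1 (by rw [hR0, Polynomial.eval_zero])

lemma conv (v : List ℝ) :
    (List.map (fun t : ℂ => t) (do let a ← v; pure (a : ℂ))) = cc v := by
  unfold cc
  rw [List.map_id']
  induction v with
  | nil => rfl
  | cons a v ih =>
    simp only [List.map_cons]
    rw [← ih]
    rfl

/-- Package ID. -/
theorem t_ID (hP : S_PERM) (hD : S_DEG) (hIC : S_IC) (hIC2 : S_IC2) : S_I := by
  intro z hz m v hv hv1 hnd x hx
  have h := main hP hD hIC hIC2 z hz m v hv hv1 hnd x hx
  rw [← conv] at h
  exact h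

end Pool.Agent.U884.OA.ID
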